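import Mathlib

set_option autoImplicit false

namespace Pool.Agent.Results.MP_7489fb_co.AsymptoticUpperBound

/-- A box `A_1 × ⋯ × A_d` in `[n]^d`, given by its sides `A_i`. -/
abbrev Box (n d : ℕ) := Fin d → Finset (Fin n)

/-- A box is proper if every side is nonempty and different from `[n]`. -/
def Proper {n d : ℕ} (B : Box n d) : Prop := ∀ i, (B i).Nonempty ∧ B i ≠ Finset.univ

/-- A double cover of `[n]^d`: a finite family of proper boxes, repetitions allowed (a multiset),
such that every point lies in exactly two members, counted with multiplicity. -/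
def IsDoubleCover (n d : ℕ) (F : Multiset (Box n d)) : Prop :=
  (∀ B ∈ F, Proper B) ∧ ∀ x : Fin d → Fin n, F.countP (fun B => ∀ i, x i ∈ B i) = 2

/-- `g n d`: the least number of members of a double cover of `[n]^d`. -/
noncomputable def g (n d : ℕ) : ℕ := sInf {m | ∃ F, IsDoubleCover n d F ∧ Multiset.card F = m}

/-- covering number of a point -/
def cov {n d : ℕ} (F : Multiset (Box n d)) (x : Fin d → Fin n) : ℕ :=
  F.countP (fun B => ∀ i, x i ∈ B i)

/-- product of two families -/
def prd {n k d : ℕ} (F : Multiset (Box n k)) (G : Multiset (Box n d)) : Multiset (Box n (k + d)) :=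
  F.bind (fun B => G.map (fun C => Fin.append B C))

section basics

variable {n k d : ℕ}

@[simp] lemma cov_zero (x : Fin d → Fin n) : cov (0 : Multiset (Box n d)) x = 0 := by
  simp [cov]

lemma cov_cons (B : Box n d) (F : Multiset (Box n d)) (x : Fin d → Fin n) :
    cov (B ::ₘ F) x = cov F x + if (∀ i, x i ∈ B i) then 1 else 0 := by
  simp [cov, Multiset.countP_cons]

lemma cov_add (F G : Multiset (Box n d)) (x : Fin d → Fin n) :
    cov (F + G) x = cov F x + cov G x := by
  simp [cov, Multiset.countP_add]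

lemma append_mem (B : Box n k) (C : Box n d) (x : Fin k → Fin n) (y : Fin d → Fin n) :
    (∀ i, (Fin.append x y) i ∈ (Fin.append B C) i) ↔ (∀ i, x i ∈ B i) ∧ (∀ i, y i ∈ C i) := by
  constructor
  · intro h
    refine ⟨fun i => ?_, fun i => ?_⟩
    · have := h (Fin.castAdd d i)
      simpa using this
    · have := h (Fin.natAdd k i)
      simpa using this
  · rintro ⟨h1, h2⟩ i
    refine Fin.addCases (fun j => ?_) (fun j => ?_) i
    · simpa using h1 j
    · simpa using h2 j

lemma cov_map_append (B : Box n k) (G : Multiset (Box n d)) (x : Fin k → Fin n)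
    (y : Fin d → Fin n) :
    cov (G.map (fun C => Fin.append B C)) (Fin.append x y) =
      (if (∀ i, x i ∈ B i) then 1 else 0) * cov G y := by
  induction G using Multiset.induction_on with
  | empty => simp
  | cons C G ih =>
    rw [Multiset.map_cons, cov_cons, cov_cons, ih]
    rw [mul_add]
    congr 1
    by_cases h1 : (∀ i, x i ∈ B i)
    · by_cases h2 : (∀ i, y i ∈ C i)
      · rw [if_pos ((append_mem B C x y).2 ⟨h1, h2⟩), if_pos h1, if_pos h2]
      · rw [if_neg (fun h => h2 ((append_mem B C x y).1 h).2), if_pos h1, if_neg h2]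
    · rw [if_neg (fun h => h1 ((append_mem B C x y).1 h).1), if_neg h1]
      simp

lemma cov_prd (F : Multiset (Box n k)) (G : Multiset (Box n d)) (x : Fin k → Fin n)
    (y : Fin d → Fin n) : cov (prd F G) (Fin.append x y) = cov F x * cov G y := by
  unfold prd
  induction F using Multiset.induction_on with
  | empty => simp
  | cons B F ih =>
    rw [Multiset.cons_bind, cov_add, ih, cov_map_append, cov_cons]
    ring

lemma card_prd (F : Multiset (Box n k)) (G : Multiset (Box n d)) :
    Multiset.card (prd F G) = Multiset.card F * Multiset.card G := by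
  unfold prd
  rw [Multiset.card_bind]
  simp

lemma proper_append {B : Box n k} {C : Box n d} (hB : Proper B) (hC : Proper C) :
    Proper (Fin.append B C) := by
  intro i
  refine Fin.addCases (fun j => ?_) (fun j => ?_) i
  · simpa using hB j
  · simpa using hC j

lemma proper_prd {F : Multiset (Box n k)} {G : Multiset (Box n d)} (hF : ∀ B ∈ F, Proper B)
    (hG : ∀ B ∈ G, Proper B) : ∀ B ∈ prd F G, Proper B := by
  intro B hB
  unfold prd at hB
  rw [Multiset.mem_bind] at hB
  obtain ⟨B1, h1, h2⟩ := hB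
  rw [Multiset.mem_map] at h2
  obtain ⟨C, hC, rfl⟩ := h2
  exact proper_append (hF _ h1) (hG _ hC)

lemma split_point (z : Fin (k + d) → Fin n) :
    ∃ (x : Fin k → Fin n) (y : Fin d → Fin n), z = Fin.append x y :=
  ⟨fun i => z (Fin.castAdd d i), fun i => z (Fin.natAdd k i), by
    funext i
    refine Fin.addCases (fun j => ?_) (fun j => ?_) i <;> simp⟩

end basics

/-- the one dimensional family consisting of one set -/
def one {n : ℕ} (S : Finset (Fin n)) : Multiset (Box n 1) := {fun _ => S}

lemma cov_one {n : ℕ} (S : Finset (Fin n)) (y : Fin 1 → Fin n) :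
    cov (one S) y = if y 0 ∈ S then 1 else 0 := by
  have : one S = (fun _ => S) ::ₘ 0 := rfl
  rw [this, cov_cons]
  simp only [cov_zero, zero_add]
  congr 1
  simp [Fin.forall_fin_one]

lemma card_one {n : ℕ} (S : Finset (Fin n)) : Multiset.card (one S) = 1 := rfl

lemma proper_one {n : ℕ} {S : Finset (Fin n)} (h1 : S.Nonempty) (h2 : S ≠ Finset.univ) :
    ∀ B ∈ one S, Proper B := by
  intro B hB
  unfold one at hB
  rw [Multiset.mem_singleton] at hB
  subst hB
  intro i
  exact ⟨h1, h2⟩

/-- The skeleton: `k + 2` boxes of multiplicity one (the family `N` and the box in `A`), and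
`2^k - k - 1` boxes of multiplicity two (the family `M`); `Q` is a partition of the complement of
the box in `A`. -/
structure Skel (n k : ℕ) where
  N : Multiset (Box n k)
  A : Multiset (Box n k)
  M : Multiset (Box n k)
  Q : Multiset (Box n k)
  pN : ∀ B ∈ N, Proper B
  pA : ∀ B ∈ A, Proper B
  pM : ∀ B ∈ M, Proper B
  pQ : ∀ B ∈ Q, Proper B
  cN : Multiset.card N = k + 1
  cA : Multiset.card A = 1
  cM : Multiset.card M + (k + 1) = 2 ^ k
  cQ : Multiset.card Q + 1 = 2 ^ k
  hNM : ∀ x, cov N x + cov A x + 2 * cov M x = 2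
  hQ : ∀ x, cov Q x + cov A x = 1

theorem exists_skel (n : ℕ) (hn : 3 ≤ n) (k : ℕ) : Nonempty (Skel n k) := by
  induction k with
  | zero =>
    refine ⟨{ N := {fun i => i.elim0}, A := {fun i => i.elim0}, M := 0, Q := 0, pN := ?_, pA := ?_,
              pM := ?_, pQ := ?_, cN := ?_, cA := ?_, cM := ?_, cQ := ?_, hNM := ?_, hQ := ?_ }⟩
    · intro B _ i; exact i.elim0
    · intro B _ i; exact i.elim0
    · intro B _ i; exact i.elim0
    · intro B _ i; exact i.elim0
    · simp
    · simp
    · simp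
    · simp
    · intro x
      have : ∀ B : Box n 0, cov ({B} : Multiset (Box n 0)) x = 1 := by
        intro B
        have h : ({B} : Multiset (Box n 0)) = B ::ₘ 0 := rfl
        rw [h, cov_cons, if_pos (fun i => i.elim0)]
        simp
      rw [this, cov_zero]
    · intro x
      have : ∀ B : Box n 0, cov ({B} : Multiset (Box n 0)) x = 1 := by
        intro B
        have h : ({B} : Multiset (Box n 0)) = B ::ₘ 0 := rfl
        rw [h, cov_cons, if_pos (fun i => i.elim0)]
        simp
      rw [this, cov_zero]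
  | succ k ih =>
    obtain ⟨s⟩ := ih
    -- the three parts of `[n]`
    let a : Fin n := ⟨0, by omega⟩
    let b : Fin n := ⟨1, by omega⟩
    let c : Fin n := ⟨2, by omega⟩
    have hab : a ≠ b := by intro h; simpa [a, b] using congrArg Fin.val h
    have hac : a ≠ c := by intro h; simpa [a, c] using congrArg Fin.val h
    have hbc : b ≠ c := by intro h; simpa [b, c] using congrArg Fin.val h
    let S12 : Finset (Fin n) := {a, b}
    let S13 : Finset (Fin n) := Finset.univ.erase b
    let S23 : Finset (Fin n) := Finset.univ.erase a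
    let S2 : Finset (Fin n) := {b}
    let S3 : Finset (Fin n) := (Finset.univ.erase a).erase b
    have p12 : S12.Nonempty ∧ S12 ≠ Finset.univ :=
      ⟨⟨a, by simp [S12]⟩, fun h => by
        have : c ∈ S12 := h ▸ Finset.mem_univ c
        simp [S12, hac.symm, hbc.symm] at this⟩
    have p13 : S13.Nonempty ∧ S13 ≠ Finset.univ :=
      ⟨⟨a, by simp [S13, hab]⟩, fun h => by
        have : b ∈ S13 := h ▸ Finset.mem_univ b
        simp [S13] at this⟩
    have p23 : S23.Nonempty ∧ S23 ≠ Finset.univ :=
      ⟨⟨b, by simp [S23, hab.symm]⟩, fun h => by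
        have : a ∈ S23 := h ▸ Finset.mem_univ a
        simp [S23] at this⟩
    have p2 : S2.Nonempty ∧ S2 ≠ Finset.univ :=
      ⟨⟨b, by simp [S2]⟩, fun h => by
        have : a ∈ S2 := h ▸ Finset.mem_univ a
        simp [S2, hab] at this⟩
    have p3 : S3.Nonempty ∧ S3 ≠ Finset.univ :=
      ⟨⟨c, by simp [S3, hac.symm, hbc.symm]⟩, fun h => by
        have : a ∈ S3 := h ▸ Finset.mem_univ a
        simp [S3] at this⟩
    refine ⟨{ N := prd s.N (one S12) + prd s.A (one S23)
              A := prd s.A (one S13)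
              M := prd s.M (one S12) + prd s.Q (one S3)
              Q := prd s.Q (one S13) + prd s.Q (one S2) + prd s.A (one S2)
              pN := ?_, pA := ?_, pM := ?_, pQ := ?_, cN := ?_, cA := ?_, cM := ?_, cQ := ?_,
              hNM := ?_, hQ := ?_ }⟩
    · intro B hB
      rcases Multiset.mem_add.1 hB with h | h
      · exact proper_prd s.pN (proper_one p12.1 p12.2) B h
      · exact proper_prd s.pA (proper_one p23.1 p23.2) B h
    · exact proper_prd s.pA (proper_one p13.1 p13.2)
    · intro B hB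
      rcases Multiset.mem_add.1 hB with h | h
      · exact proper_prd s.pM (proper_one p12.1 p12.2) B h
      · exact proper_prd s.pQ (proper_one p3.1 p3.2) B h
    · intro B hB
      rcases Multiset.mem_add.1 hB with h | h
      · rcases Multiset.mem_add.1 h with h | h
        · exact proper_prd s.pQ (proper_one p13.1 p13.2) B h
        · exact proper_prd s.pQ (proper_one p2.1 p2.2) B h
      · exact proper_prd s.pA (proper_one p2.1 p2.2) B h
    · rw [Multiset.card_add, card_prd, card_prd, card_one, card_one, s.cN, s.cA]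
      ring
    · rw [card_prd, card_one, s.cA]
    · rw [Multiset.card_add, card_prd, card_prd, card_one, card_one]
      have h1 := s.cM
      have h2 := s.cQ
      rw [pow_succ]
      omega
    · rw [Multiset.card_add, Multiset.card_add, card_prd, card_prd, card_prd, card_one, card_one,
        s.cA]
      have h2 := s.cQ
      rw [pow_succ]
      omega
    · intro z
      obtain ⟨x, y, rfl⟩ := split_point z
      rw [cov_add, cov_add, cov_prd, cov_prd, cov_prd, cov_prd, cov_prd, cov_one, cov_one, cov_one,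
        cov_one]
      have h1 := s.hNM x
      have h2 := s.hQ x
      by_cases ha : y 0 = a
      · have e1 : y 0 ∈ S12 := by simp [S12, ha]
        have e2 : y 0 ∉ S23 := by simp [S23, ha]
        have e3 : y 0 ∈ S13 := by simp [S13, ha, hab]
        have e4 : y 0 ∉ S3 := by simp [S3, ha]
        rw [if_pos e1, if_neg e2, if_pos e3, if_neg e4]
        omega
      · by_cases hb : y 0 = b
        · have e1 : y 0 ∈ S12 := by simp [S12, hb]
          have e2 : y 0 ∈ S23 := by simp [S23, hb, hab.symm]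
          have e3 : y 0 ∉ S13 := by simp [S13, hb]
          have e4 : y 0 ∉ S3 := by simp [S3, hb]
          rw [if_pos e1, if_pos e2, if_neg e3, if_neg e4]
          omega
        · have e1 : y 0 ∉ S12 := by simp [S12, ha, hb]
          have e2 : y 0 ∈ S23 := by simp [S23, ha]
          have e3 : y 0 ∈ S13 := by simp [S13, hb]
          have e4 : y 0 ∈ S3 := by simp [S3, ha, hb]
          rw [if_neg e1, if_pos e2, if_pos e3, if_pos e4]
          omega
    · intro z
      obtain ⟨x, y, rfl⟩ := split_point z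
      rw [cov_add, cov_add, cov_prd, cov_prd, cov_prd, cov_prd, cov_one, cov_one]
      have h2 := s.hQ x
      by_cases hb : y 0 = b
      · have e1 : y 0 ∉ S13 := by simp [S13, hb]
        have e2 : y 0 ∈ S2 := by simp [S2, hb]
        rw [if_neg e1, if_pos e2]
        omega
      · have e1 : y 0 ∈ S13 := by simp [S13, hb]
        have e2 : y 0 ∉ S2 := by simp [S2, hb]
        rw [if_pos e1, if_neg e2]
        omega

/-- the recursion -/
theorem recursion (n : ℕ) (hn : 3 ≤ n) (k d : ℕ) (F : Multiset (Box n d))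
    (hF : IsDoubleCover n d F) :
    ∃ G : Multiset (Box n (k + d)), IsDoubleCover n (k + d) G ∧
      Multiset.card G + (k + 1) * Multiset.card F = (k + 2) * 2 ^ d + 2 ^ k * Multiset.card F := by
  obtain ⟨s⟩ := exists_skel n hn k
  obtain ⟨t⟩ := exists_skel n hn d
  refine ⟨prd (s.N + s.A) (t.Q + t.A) + prd s.M F, ⟨?_, ?_⟩, ?_⟩
  · intro B hB
    rcases Multiset.mem_add.1 hB with h | h
    · refine proper_prd ?_ ?_ B h
      · intro B hB
        rcases Multiset.mem_add.1 hB with h | h
        · exact s.pN B h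
        · exact s.pA B h
      · intro B hB
        rcases Multiset.mem_add.1 hB with h | h
        · exact t.pQ B h
        · exact t.pA B h
    · exact proper_prd s.pM hF.1 B h
  · intro z
    obtain ⟨x, y, rfl⟩ := split_point z
    change cov _ _ = 2
    rw [cov_add, cov_prd, cov_prd, cov_add, cov_add, t.hQ y]
    have h1 := s.hNM x
    have h2 : cov F y = 2 := hF.2 y
    rw [h2]
    omega
  · rw [Multiset.card_add, card_prd, card_prd, Multiset.card_add, Multiset.card_add, s.cN, s.cA,
      t.cA, t.cQ]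
    have h1 := s.cM
    rw [← h1]
    ring

theorem exists_double (n : ℕ) (hn : 3 ≤ n) (d : ℕ) :
    ∃ F : Multiset (Box n d), IsDoubleCover n d F ∧ Multiset.card F = 2 * 2 ^ d := by
  obtain ⟨t⟩ := exists_skel n hn d
  refine ⟨(t.Q + t.A) + (t.Q + t.A), ⟨?_, ?_⟩, ?_⟩
  · intro B hB
    have hB' : B ∈ t.Q ∨ B ∈ t.A := by
      simpa using hB
    rcases hB' with h | h
    · exact t.pQ B h
    · exact t.pA B h
  · intro x
    change cov _ _ = 2
    rw [cov_add, cov_add, t.hQ x]
  · rw [Multiset.card_add, Multiset.card_add, t.cA, t.cQ]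
    ring

theorem iterate (n : ℕ) (hn : 3 ≤ n) (k d₀ : ℕ) (s : ℕ) : ∀ d : ℕ, d = k * s + d₀ →
    ∃ F : Multiset (Box n d), IsDoubleCover n d F ∧
      (Multiset.card F : ℝ) ≤
        (((k : ℝ) + 2) / ((k : ℝ) + 1) + (1 - ((k : ℝ) + 1) / 2 ^ k) ^ s) * 2 ^ d := by
  have hk : ((k : ℝ) + 1) ≤ 2 ^ k := by
    have : k + 1 ≤ 2 ^ k := Nat.lt_two_pow_self
    exact_mod_cast this
  have hk0 : (0 : ℝ) < (k : ℝ) + 1 := by positivity
  induction s with
  | zero =>
    intro d hd
    obtain ⟨F, hF, hc⟩ := exists_double n hn d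
    refine ⟨F, hF, ?_⟩
    rw [hc]
    push_cast
    have h1 : (1 : ℝ) ≤ ((k : ℝ) + 2) / ((k : ℝ) + 1) := by
      rw [le_div_iff₀ hk0]; linarith
    have h2 : (0 : ℝ) < 2 ^ d := by positivity
    rw [pow_zero]
    nlinarith
  | succ s ih =>
    intro d hd
    obtain ⟨e, he⟩ : ∃ e, e = k * s + d₀ := ⟨_, rfl⟩
    obtain ⟨F, hF, hc⟩ := ih e he
    obtain ⟨G, hG, hcG⟩ := recursion n hn k e F hF
    have hd' : k + e = d := by rw [hd, he]; ring
    subst hd'
    refine ⟨G, hG, ?_⟩
    have hcG' : (Multiset.card G : ℝ) + ((k : ℝ) + 1) * Multiset.card F =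
        ((k : ℝ) + 2) * 2 ^ e + 2 ^ k * Multiset.card F := by exact_mod_cast hcG
    have h1 : (Multiset.card G : ℝ) =
        ((k : ℝ) + 2) * 2 ^ e + (2 ^ k - ((k : ℝ) + 1)) * Multiset.card F := by linarith
    rw [h1]
    set r := ((k : ℝ) + 2) / ((k : ℝ) + 1) with hr
    set q := 1 - ((k : ℝ) + 1) / 2 ^ k with hq
    have h2 : (2 ^ k - ((k : ℝ) + 1)) * (Multiset.card F : ℝ) ≤
        (2 ^ k - ((k : ℝ) + 1)) * ((r + q ^ s) * 2 ^ e) :=
      mul_le_mul_of_nonneg_left hc (by linarith)
    have h3 : (2 ^ k - ((k : ℝ) + 1)) = q * 2 ^ k := by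
      rw [hq]; field_simp
    have h4 : ((k : ℝ) + 2) = r * ((k : ℝ) + 1) := by
      rw [hr]; field_simp
    have h5 : ((k : ℝ) + 1) = (1 - q) * 2 ^ k := by
      rw [hq]; field_simp; ring
    calc ((k : ℝ) + 2) * 2 ^ e + (2 ^ k - ((k : ℝ) + 1)) * Multiset.card F
        ≤ ((k : ℝ) + 2) * 2 ^ e + (2 ^ k - ((k : ℝ) + 1)) * ((r + q ^ s) * 2 ^ e) := by linarith
      _ = (r * ((1 - q) * 2 ^ k)) * 2 ^ e + (q * 2 ^ k) * ((r + q ^ s) * 2 ^ e) := by
          rw [h3, h4, ← h5]
      _ = (r + q ^ (s + 1)) * 2 ^ (k + e) := by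
          rw [pow_add, pow_succ]; ring

/-- **Upper bound for Q1.** For every `n ≥ 3`:
* for all `k, d`: `g(n, k + d) ≤ (k + 2) 2^d + (2^k - k - 1) g(n, d)`;
* for every `ε > 0` and all sufficiently large `d` there is a double cover of `[n]^d` by at most
  `(1 + ε) 2^d` proper boxes; in particular `g(n, d) ≤ (1 + ε) 2^d`. -/
theorem result (n : ℕ) (hn : 3 ≤ n) :
    (∀ k d : ℕ, g n (k + d) ≤ (k + 2) * 2 ^ d + (2 ^ k - k - 1) * g n d) ∧
    (∀ ε : ℝ, 0 < ε → ∃ D : ℕ, ∀ d : ℕ, D ≤ d →
      (∃ F : Multiset (Box n d), IsDoubleCover n d F ∧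
        (Multiset.card F : ℝ) ≤ (1 + ε) * 2 ^ d) ∧
      (g n d : ℝ) ≤ (1 + ε) * 2 ^ d) := by
  have hg : ∀ (d : ℕ) (F : Multiset (Box n d)), IsDoubleCover n d F → g n d ≤ Multiset.card F :=
    fun d F hF => Nat.sInf_le ⟨F, hF, rfl⟩
  refine ⟨fun k d => ?_, fun ε hε => ?_⟩
  · have hne : {m | ∃ F, IsDoubleCover n d F ∧ Multiset.card F = m}.Nonempty := by
      obtain ⟨F, hF, _⟩ := exists_double n hn d
      exact ⟨_, F, hF, rfl⟩
    obtain ⟨F, hF, hc⟩ := Nat.sInf_mem hne
    change Multiset.card F = g n d at hc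
    obtain ⟨G, hG, hcG⟩ := recursion n hn k d F hF
    have h1 := hg _ G hG
    rw [hc] at hcG
    have h2 : k + 1 ≤ 2 ^ k := Nat.lt_two_pow_self
    have h3 : (2 ^ k - k - 1) + (k + 1) = 2 ^ k := by omega
    have h4 : 2 ^ k * g n d = (2 ^ k - k - 1) * g n d + (k + 1) * g n d := by
      rw [← add_mul, h3]
    omega
  · obtain ⟨k, hk⟩ := exists_nat_gt (2 / ε)
    have hkε : (0 : ℝ) < 2 / ε := by positivity
    have hk0 : (0 : ℝ) < (k : ℝ) := lt_trans hkε hk
    have hkpos : 0 < k := by exact_mod_cast hk0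
    have hk1 : (0 : ℝ) < (k : ℝ) + 1 := by linarith
    have hk2 : ((k : ℝ) + 1) ≤ 2 ^ k := by
      have : k + 1 ≤ 2 ^ k := Nat.lt_two_pow_self
      exact_mod_cast this
    set q := 1 - ((k : ℝ) + 1) / 2 ^ k with hq
    have hp : (0 : ℝ) < 2 ^ k := by positivity
    have hq0 : 0 ≤ q := by
      rw [hq, sub_nonneg, div_le_one hp]; exact hk2
    have hq1 : q < 1 := by
      rw [hq]
      have : 0 < ((k : ℝ) + 1) / 2 ^ k := by positivity
      linarith
    obtain ⟨t, ht⟩ := exists_pow_lt_of_lt_one (half_pos hε) hq1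
    refine ⟨k * t, fun d hd => ?_⟩
    have hex : ∃ F : Multiset (Box n d), IsDoubleCover n d F ∧
        (Multiset.card F : ℝ) ≤ (1 + ε) * 2 ^ d := by
      obtain ⟨F, hF, hc⟩ := iterate n hn k (d % k) (d / k) d (Nat.div_add_mod d k).symm
      refine ⟨F, hF, hc.trans ?_⟩
      apply mul_le_mul_of_nonneg_right _ (by positivity)
      have hs : t ≤ d / k := (Nat.le_div_iff_mul_le hkpos).2 (by rw [mul_comm]; exact hd)
      have h1 : q ^ (d / k) ≤ q ^ t := pow_le_pow_of_le_one hq0 hq1.le hs
      have h2 : ((k : ℝ) + 2) / ((k : ℝ) + 1) ≤ 1 + ε / 2 := by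
        rw [div_le_iff₀ hk1]
        have h3 : 2 < k * ε := by
          rw [div_lt_iff₀ hε] at hk
          exact hk
        nlinarith
      linarith
    refine ⟨hex, ?_⟩
    obtain ⟨F, hF, hc⟩ := hex
    have : (g n d : ℝ) ≤ (Multiset.card F : ℝ) := by exact_mod_cast hg d F hF
    exact this.trans hc

end Pool.Agent.Results.MP_7489fb_co.AsymptoticUpperBound
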