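import Mathlib
import Pool.Agent.Results.MP_7489fb_co.AsymptoticUpperBound

set_option autoImplicit false

/-!
# Two-sided bounds for double covers of `[n]^d` by proper boxes

Lower bound: every double cover of `[n]^d` by proper boxes has at least `2^(d+1) / (d+1)` members
(`n ≥ 2`), and at least `3 * 2^(d+1) / (d+3)` members for `n = 3`. Idea: evaluate the identity
`∑ 1_B = 2` on random product functionals with values in `ZMod 4`.
-/

namespace Pool.Agent.Results.MP_7489fb_co.ATwoSided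

open Pool.Agent.Results.MP_7489fb_co.AsymptoticUpperBound

/-- Lee weight on `ZMod 4` -/
def lee (v : ZMod 4) : ℕ := if v = 0 then 0 else if v = 2 then 2 else 1

lemma lee_add (a b : ZMod 4) : lee (a + b) ≤ lee a + lee b := by
  revert a b; decide

lemma lee_sum (s : Multiset (ZMod 4)) : lee s.sum ≤ (s.map lee).sum := by
  induction s using Multiset.induction_on with
  | empty => simp [lee]
  | cons a s ih =>
    rw [Multiset.sum_cons, Multiset.map_cons, Multiset.sum_cons]
    exact (lee_add _ _).trans (Nat.add_le_add_left ih _)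

/-- indicator of odd residues -/
def od (v : ZMod 4) : ℕ := if v = 1 ∨ v = 3 then 1 else 0
/-- indicator of the residue two -/
def tw (v : ZMod 4) : ℕ := if v = 2 then 1 else 0

lemma od_mul (a b : ZMod 4) : od (a * b) = od a * od b := by
  revert a b; decide

lemma od_prod {ι : Type*} (s : Finset ι) (v : ι → ZMod 4) :
    od (∏ i ∈ s, v i) = ∏ i ∈ s, od (v i) := by
  classical
  induction s using Finset.induction_on with
  | empty => simp [od]
  | insert a s ha ih => rw [Finset.prod_insert ha, Finset.prod_insert ha, od_mul, ih]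

lemma lee_mul (a b : ZMod 4) : lee (a * b) ≤ od a * lee b + 2 * (tw a * od b) := by
  revert a b; decide

lemma lee_prod {d : ℕ} (s : Finset (Fin d)) (v : Fin d → ZMod 4) :
    lee (∏ i ∈ s, v i) ≤ ∏ i ∈ s, od (v i) +
      2 * ∑ i ∈ s, ∏ j ∈ s, (if j = i then tw (v j) else od (v j)) := by
  classical
  induction s using Finset.induction_on with
  | empty =>
    simp only [Finset.prod_empty, Finset.sum_empty, mul_zero, add_zero]
    decide
  | insert a s ha ih =>
    rw [Finset.prod_insert ha, Finset.prod_insert ha, Finset.sum_insert ha, Finset.prod_insert ha]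
    have h1 : ∏ j ∈ s, (if j = a then tw (v j) else od (v j)) = ∏ j ∈ s, od (v j) := by
      apply Finset.prod_congr rfl
      intro j hj
      rw [if_neg]
      rintro rfl
      exact ha hj
    have h2 : ∑ i ∈ s, ∏ j ∈ insert a s, (if j = i then tw (v j) else od (v j)) =
        od (v a) * ∑ i ∈ s, ∏ j ∈ s, (if j = i then tw (v j) else od (v j)) := by
      rw [Finset.mul_sum]
      apply Finset.sum_congr rfl
      intro i hi
      rw [Finset.prod_insert ha, if_neg]
      rintro rfl
      exact ha hi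
    rw [h1, h2, if_pos rfl]
    refine (lee_mul _ _).trans ?_
    rw [od_prod]
    nlinarith [Nat.mul_le_mul_left (od (v a)) ih]

lemma sum_val {n d : ℕ} (f : Fin d → Fin n → ZMod 4) (F : Multiset (Box n d)) :
    (F.map (fun B => ∏ i, ∑ j ∈ B i, f i j)).sum =
      ∑ x : Fin d → Fin n, ((F.countP (fun B => ∀ i, x i ∈ B i) : ℕ) : ZMod 4) * ∏ i, f i (x i) := by
  classical
  induction F using Multiset.induction_on with
  | empty => simp
  | cons B F ih =>
    rw [Multiset.map_cons, Multiset.sum_cons, ih]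
    have h1 : ∏ i, ∑ j ∈ B i, f i j =
        ∑ x : Fin d → Fin n, (if (∀ i, x i ∈ B i) then ∏ i, f i (x i) else 0) := by
      rw [Finset.prod_univ_sum, ← Finset.sum_filter]
      apply Finset.sum_congr _ (fun _ _ => rfl)
      ext x
      simp [Fintype.mem_piFinset]
    rw [h1, ← Finset.sum_add_distrib]
    apply Finset.sum_congr rfl
    intro x _
    rw [Multiset.countP_cons]
    by_cases h : ∀ i, x i ∈ B i
    · rw [if_pos h, if_pos h]; push_cast; ring
    · rw [if_neg h, if_neg h]; push_cast; ring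

/-- the averaging argument -/
theorem key {n d : ℕ} {Ω : Type} [Fintype Ω] (ρ : Ω → Fin n → ZMod 4)
    (hρ : ∀ ω, ∑ j, ρ ω j = 1) (M κ : ℕ) (hM : Fintype.card Ω = 2 * M)
    (ho : ∀ S : Finset (Fin n), S.Nonempty → S ≠ Finset.univ → ∑ ω, od (∑ j ∈ S, ρ ω j) = M)
    (ht : ∀ S : Finset (Fin n), S.Nonempty → S ≠ Finset.univ → ∑ ω, tw (∑ j ∈ S, ρ ω j) ≤ κ)
    (F : Multiset (Box n d)) (hF : IsDoubleCover n d F) :
    2 * (2 * M) ^ d ≤ Multiset.card F * (M ^ d + 2 * (d * (κ * M ^ (d - 1)))) := by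
  classical
  have h1 : ∀ ω : Fin d → Ω, 2 ≤ (F.map (fun B => lee (∏ i, ∑ j ∈ B i, ρ (ω i) j))).sum := by
    intro ω
    have h2 := sum_val (fun i => ρ (ω i)) F
    have h3 : (∑ x : Fin d → Fin n, ((F.countP (fun B => ∀ i, x i ∈ B i) : ℕ) : ZMod 4) *
        ∏ i, ρ (ω i) (x i)) = 2 := by
      have h4 : ∀ x : Fin d → Fin n, ((F.countP (fun B => ∀ i, x i ∈ B i) : ℕ) : ZMod 4) *
          ∏ i, ρ (ω i) (x i) = 2 * ∏ i, ρ (ω i) (x i) := by
        intro x
        rw [hF.2 x]; norm_num
      rw [Finset.sum_congr rfl (fun x _ => h4 x), ← Finset.mul_sum]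
      have h5 : ∑ x : Fin d → Fin n, ∏ i, ρ (ω i) (x i) = ∏ i, ∑ j, ρ (ω i) j := by
        rw [Finset.prod_univ_sum, Fintype.piFinset_univ]
      rw [h5, Finset.prod_congr rfl (fun i _ => hρ (ω i)), Finset.prod_const_one, mul_one]
    rw [h3] at h2
    have h6 := lee_sum (F.map (fun B => ∏ i, ∑ j ∈ B i, ρ (ω i) j))
    rw [h2, Multiset.map_map] at h6
    exact h6
  have h7 : ∀ B : Box n d, Proper B → ∑ ω : Fin d → Ω, lee (∏ i, ∑ j ∈ B i, ρ (ω i) j) ≤
      M ^ d + 2 * (d * (κ * M ^ (d - 1))) := by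
    intro B hB
    calc ∑ ω : Fin d → Ω, lee (∏ i, ∑ j ∈ B i, ρ (ω i) j)
        ≤ ∑ ω : Fin d → Ω, (∏ i, od (∑ j ∈ B i, ρ (ω i) j) +
          2 * ∑ k, ∏ i, (if i = k then tw (∑ j ∈ B i, ρ (ω i) j) else
            od (∑ j ∈ B i, ρ (ω i) j))) :=
          Finset.sum_le_sum fun ω _ => lee_prod Finset.univ _
      _ = (∑ ω : Fin d → Ω, ∏ i, od (∑ j ∈ B i, ρ (ω i) j)) +
          2 * ∑ k, ∑ ω : Fin d → Ω, ∏ i, (if i = k then tw (∑ j ∈ B i, ρ (ω i) j) else
            od (∑ j ∈ B i, ρ (ω i) j)) := by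
          rw [Finset.sum_add_distrib, ← Finset.mul_sum, Finset.sum_comm]
      _ = (∏ i, ∑ ω, od (∑ j ∈ B i, ρ ω j)) +
          2 * ∑ k, ∏ i, ∑ ω, (if i = k then tw (∑ j ∈ B i, ρ ω j) else
            od (∑ j ∈ B i, ρ ω j)) := by
          congr 1
          · rw [Finset.prod_univ_sum, Fintype.piFinset_univ]
          · congr 1
            apply Finset.sum_congr rfl
            intro k _
            rw [Finset.prod_univ_sum, Fintype.piFinset_univ]
      _ ≤ M ^ d + 2 * (d * (κ * M ^ (d - 1))) := by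
          have e1 : (∏ i, ∑ ω, od (∑ j ∈ B i, ρ ω j)) = M ^ d := by
            rw [Finset.prod_congr rfl (fun i _ => ho (B i) (hB i).1 (hB i).2), Finset.prod_const,
              Finset.card_univ, Fintype.card_fin]
          have e2 : ∀ k : Fin d, ∏ i, ∑ ω, (if i = k then tw (∑ j ∈ B i, ρ ω j) else
            od (∑ j ∈ B i, ρ ω j)) ≤ κ * M ^ (d - 1) := by
            intro k
            rw [← Finset.mul_prod_erase Finset.univ _ (Finset.mem_univ k)]
            apply Nat.mul_le_mul
            · simp only [if_true]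
              exact ht (B k) (hB k).1 (hB k).2
            · apply le_of_eq
              rw [Finset.prod_congr rfl (g := fun _ => M)]
              · rw [Finset.prod_const, Finset.card_erase_of_mem (Finset.mem_univ k),
                  Finset.card_univ, Fintype.card_fin]
              · intro i hi
                rw [Finset.sum_congr rfl (fun ω _ => if_neg (Finset.ne_of_mem_erase hi))]
                exact ho (B i) (hB i).1 (hB i).2
          rw [e1]
          apply Nat.add_le_add_left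
          apply Nat.mul_le_mul_left
          calc ∑ k : Fin d, ∏ i, ∑ ω, (if i = k then tw (∑ j ∈ B i, ρ ω j) else
            od (∑ j ∈ B i, ρ ω j)) ≤ ∑ k : Fin d, κ * M ^ (d - 1) :=
              Finset.sum_le_sum fun k _ => e2 k
            _ = d * (κ * M ^ (d - 1)) := by
              rw [Finset.sum_const, Finset.card_univ, Fintype.card_fin, smul_eq_mul]
  have h8 : ∀ G : Multiset (Box n d), (∀ B ∈ G, Proper B) →
      ∑ ω : Fin d → Ω, (G.map (fun B => lee (∏ i, ∑ j ∈ B i, ρ (ω i) j))).sum ≤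
        Multiset.card G * (M ^ d + 2 * (d * (κ * M ^ (d - 1)))) := by
    intro G
    induction G using Multiset.induction_on with
    | empty => simp
    | cons B G ih =>
      intro hG
      simp only [Multiset.map_cons, Multiset.sum_cons, Multiset.card_cons]
      rw [Finset.sum_add_distrib, add_mul, one_mul, add_comm]
      exact Nat.add_le_add (ih fun C hC => hG C (Multiset.mem_cons_of_mem hC))
        (h7 B (hG B (Multiset.mem_cons_self _ _)))
  calc 2 * (2 * M) ^ d = ∑ ω : Fin d → Ω, 2 := by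
        rw [Finset.sum_const, Finset.card_univ, Fintype.card_fun, hM, Fintype.card_fin, smul_eq_mul,
          mul_comm]
    _ ≤ ∑ ω : Fin d → Ω, (F.map (fun B => lee (∏ i, ∑ j ∈ B i, ρ (ω i) j))).sum :=
        Finset.sum_le_sum fun ω _ => h1 ω
    _ ≤ _ := h8 F hF.1


/-- the functionals on `[n]` with total mass one -/
abbrev Om (n : ℕ) : Type := {r : Fin n → ZMod 4 // ∑ j, r j = 1}

/-- number of functionals in `Om n` with value `v` on `S` -/
def cnt (n : ℕ) (S : Finset (Fin n)) (v : ZMod 4) : ℕ :=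
  (Finset.univ.filter (fun r : Om n => ∑ j ∈ S, r.1 j = v)).card

lemma cnt_le (n : ℕ) (S : Finset (Fin n)) (h1 : S.Nonempty) (h2 : S ≠ Finset.univ)
    (v w : ZMod 4) : cnt n S v ≤ cnt n S w := by
  classical
  obtain ⟨a, ha⟩ := h1
  obtain ⟨b, hb⟩ : ∃ b, b ∉ S := by
    by_contra hcon
    push Not at hcon
    exact h2 (Finset.eq_univ_iff_forall.2 hcon)
  have hab : a ≠ b := by rintro rfl; exact hb ha
  have hsum : ∀ (c : ZMod 4), ∑ j, (Pi.single a c - Pi.single b c : Fin n → ZMod 4) j = 0 := by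
    intro c
    simp only [Pi.sub_apply, Finset.sum_sub_distrib]
    rw [Finset.sum_pi_single', Finset.sum_pi_single']
    simp
  have hsumS : ∀ (c : ZMod 4), ∑ j ∈ S, (Pi.single a c - Pi.single b c : Fin n → ZMod 4) j = c := by
    intro c
    simp only [Pi.sub_apply, Finset.sum_sub_distrib]
    rw [Finset.sum_pi_single', Finset.sum_pi_single', if_pos ha, if_neg hb, sub_zero]
  unfold cnt
  refine Finset.card_le_card_of_injOn
    (fun r => ⟨r.1 + (Pi.single a (w - v) - Pi.single b (w - v)), ?_⟩) ?_ ?_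
  · simp only [Pi.add_apply, Finset.sum_add_distrib]
    rw [r.2]
    have := hsum (w - v)
    rw [this, add_zero]
  · intro r hr
    simp only [Finset.coe_filter, Finset.mem_univ, true_and, Set.mem_ofPred_eq] at hr ⊢
    simp only [Pi.add_apply, Finset.sum_add_distrib]
    have := hsumS (w - v)
    rw [this, hr]
    ring
  · intro r _ r' _ h
    have h' := congrArg Subtype.val h
    simp only at h'
    exact Subtype.ext (add_right_cancel h')

lemma cnt_eq (n : ℕ) (S : Finset (Fin n)) (h1 : S.Nonempty) (h2 : S ≠ Finset.univ)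
    (v w : ZMod 4) : cnt n S v = cnt n S w :=
  le_antisymm (cnt_le n S h1 h2 v w) (cnt_le n S h1 h2 w v)

lemma card_Om (n : ℕ) (S : Finset (Fin n)) (h1 : S.Nonempty) (h2 : S ≠ Finset.univ) :
    Fintype.card (Om n) = 4 * cnt n S 0 := by
  classical
  have h : Fintype.card (Om n) = ∑ v : ZMod 4, cnt n S v := by
    rw [← Finset.card_univ]
    exact Finset.card_eq_sum_card_fiberwise (f := fun r : Om n => ∑ j ∈ S, r.1 j)
      (t := Finset.univ) (fun r _ => Finset.mem_coe.2 (Finset.mem_univ _))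
  rw [h, Finset.sum_congr rfl (fun v _ => cnt_eq n S h1 h2 v 0), Finset.sum_const,
    Finset.card_univ, ZMod.card, smul_eq_mul]

/-- **Lower bound** for all `n ≥ 2`. -/
theorem lower (n d : ℕ) (hn : 2 ≤ n) (F : Multiset (Box n d)) (hF : IsDoubleCover n d F) :
    2 ^ (d + 1) ≤ (d + 1) * Multiset.card F := by
  classical
  let a : Fin n := ⟨0, by omega⟩
  let b : Fin n := ⟨1, by omega⟩
  have hab : a ≠ b := by intro h; simpa [a, b] using congrArg Fin.val h
  have hS1 : ({a} : Finset (Fin n)).Nonempty := Finset.singleton_nonempty a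
  have hS2 : ({a} : Finset (Fin n)) ≠ Finset.univ := by
    intro h
    have : b ∈ ({a} : Finset (Fin n)) := h ▸ Finset.mem_univ b
    exact hab (Finset.mem_singleton.1 this).symm
  obtain ⟨K, hK⟩ : ∃ K, K = cnt n {a} 0 := ⟨_, rfl⟩
  have hcard : Fintype.card (Om n) = 4 * K := by rw [hK]; exact card_Om n {a} hS1 hS2
  have hall : ∀ S : Finset (Fin n), S.Nonempty → S ≠ Finset.univ → ∀ v, cnt n S v = K := by
    intro S h1 h2 v
    have h3 := card_Om n S h1 h2
    rw [cnt_eq n S h1 h2 v 0]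
    omega
  have hpos : 0 < K := by
    have : 0 < Fintype.card (Om n) := by
      rw [Fintype.card_pos_iff]
      refine ⟨⟨Pi.single a 1, ?_⟩⟩
      rw [Finset.sum_pi_single']
      simp
    omega
  have hod : ∀ S : Finset (Fin n), S.Nonempty → S ≠ Finset.univ →
      ∑ ω : Om n, od (∑ j ∈ S, ω.1 j) = 2 * K := by
    intro S h1 h2
    have e : ∀ ω : Om n, od (∑ j ∈ S, ω.1 j) =
        (if ∑ j ∈ S, ω.1 j = 1 then 1 else 0) + (if ∑ j ∈ S, ω.1 j = 3 then 1 else 0) := by
      intro ω
      generalize ∑ j ∈ S, ω.1 j = v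
      revert v; decide
    rw [Finset.sum_congr rfl (fun ω _ => e ω), Finset.sum_add_distrib, ← Finset.card_filter,
      ← Finset.card_filter]
    have h3 := hall S h1 h2 1
    have h4 := hall S h1 h2 3
    unfold cnt at h3 h4
    rw [h3, h4]
    ring
  have htw : ∀ S : Finset (Fin n), S.Nonempty → S ≠ Finset.univ →
      ∑ ω : Om n, tw (∑ j ∈ S, ω.1 j) ≤ K := by
    intro S h1 h2
    unfold tw
    rw [← Finset.card_filter]
    exact (hall S h1 h2 2).le
  have hkey := key (Ω := Om n) (fun ω => ω.1) (fun ω => ω.2) (2 * K) K (by rw [hcard]; ring)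
    hod htw F hF
  have h5 : 2 * (d * (K * (2 * K) ^ (d - 1))) = d * (2 * K) ^ d := by
    rcases Nat.eq_zero_or_pos d with h | h
    · subst h; simp
    · obtain ⟨e, rfl⟩ : ∃ e, d = e + 1 := ⟨d - 1, by omega⟩
      rw [Nat.add_sub_cancel, pow_succ]
      ring
  rw [h5] at hkey
  have h6 : 2 * (2 * (2 * K)) ^ d = 2 ^ (d + 1) * (2 * K) ^ d := by
    rw [mul_pow 2 (2 * K) d, pow_succ]; ring
  have h7 : Multiset.card F * ((2 * K) ^ d + d * (2 * K) ^ d) =
      ((d + 1) * Multiset.card F) * (2 * K) ^ d := by ring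
  rw [h6, h7] at hkey
  exact Nat.le_of_mul_le_mul_right hkey (by positivity)

/-- the twelve functionals for `n = 3` -/
def rho3 (w : Fin 12) (j : Fin 3) : ZMod 4 :=
  if w.1 < 9 then (if w.1 / 3 = j.1 then 1 else 0) else (if w.1 - 9 = j.1 then 3 else 1)

/-- **Lower bound** for `n = 3`. -/
theorem lower3 (d : ℕ) (F : Multiset (Box 3 d)) (hF : IsDoubleCover 3 d F) :
    3 * 2 ^ (d + 1) ≤ (d + 3) * Multiset.card F := by
  have hkey := key (Ω := Fin 12) rho3 (by decide) 6 1 (by decide) (by decide) (by decide) F hF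
  rcases Nat.eq_zero_or_pos d with h | h
  · subst h
    simp at hkey ⊢
    omega
  · obtain ⟨e, rfl⟩ : ∃ e, d = e + 1 := ⟨d - 1, by omega⟩
    rw [Nat.add_sub_cancel] at hkey
    have h1 : 2 * (2 * 6) ^ (e + 1) = (2 * (3 * 2 ^ (e + 1 + 1))) * 6 ^ e := by
      rw [mul_pow, pow_succ 6 e, pow_succ 2 (e + 1)]; ring
    have h2 : Multiset.card F * (6 ^ (e + 1) + 2 * ((e + 1) * (1 * 6 ^ e))) =
        (2 * ((e + 1 + 3) * Multiset.card F)) * 6 ^ e := by
      rw [pow_succ]; ring
    rw [h1, h2] at hkey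
    have h3 := Nat.le_of_mul_le_mul_right hkey (by positivity)
    omega

/-- **Two-sided bounds.**
* For every `n ≥ 2` every double cover of `[n]^d` by proper boxes has at least
  `2^(d+1) / (d+1)` members; for `n = 3` at least `3 * 2^(d+1) / (d+3)` members.
* For every `n ≥ 3` and `ε > 0`, for all large `d`:
  `2^(d+1) / (d+1) ≤ g(n,d) ≤ (1 + ε) 2^d`. -/
theorem result :
    (∀ n d : ℕ, 2 ≤ n → ∀ F : Multiset (Box n d), IsDoubleCover n d F →
      2 ^ (d + 1) ≤ (d + 1) * Multiset.card F) ∧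
    (∀ d : ℕ, ∀ F : Multiset (Box 3 d), IsDoubleCover 3 d F →
      3 * 2 ^ (d + 1) ≤ (d + 3) * Multiset.card F) ∧
    (∀ n d : ℕ, 3 ≤ n → (2 : ℝ) / (d + 1) * 2 ^ d ≤ (g n d : ℝ)) ∧
    (∀ n : ℕ, 3 ≤ n → ∀ ε : ℝ, 0 < ε → ∃ D : ℕ, ∀ d : ℕ, D ≤ d →
      (g n d : ℝ) ≤ (1 + ε) * 2 ^ d) := by
  refine ⟨fun n d hn F hF => lower n d hn F hF, lower3, fun n d hn => ?_, fun n hn ε hε => ?_⟩
  · have hne : {m | ∃ F, IsDoubleCover n d F ∧ Multiset.card F = m}.Nonempty := by
      obtain ⟨F, hF, _⟩ := exists_double n hn d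
      exact ⟨_, F, hF, rfl⟩
    obtain ⟨F, hF, hc⟩ := Nat.sInf_mem hne
    change Multiset.card F = g n d at hc
    have h1 := lower n d (by omega) F hF
    rw [hc] at h1
    have h2 : (2 : ℝ) ^ (d + 1) ≤ ((d : ℝ) + 1) * (g n d : ℝ) := by exact_mod_cast h1
    have h3 : (0 : ℝ) < (d : ℝ) + 1 := by positivity
    rw [div_mul_eq_mul_div, div_le_iff₀ h3]
    rw [pow_succ] at h2
    linarith
  · obtain ⟨D, hD⟩ := (AsymptoticUpperBound.result n hn).2 ε hε
    exact ⟨D, fun d hd => (hD d hd).2⟩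

end Pool.Agent.Results.MP_7489fb_co.ATwoSided
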